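import Pool.Agent.R217.NL.Red6

set_option autoImplicit false

open Filter Topology Pool.Agent.R217.NL

namespace Pool.Agent.Results.MP_3a5611_an.Quantization

/-- Radial blow-up solutions of `Δ_n u + λ u^{n-1} exp(u^{n/(n-1)}) = 0` in the unit ball of
`ℝⁿ`, `n = d + 2 ≥ 3`: the energies converge to `n^{n-1} ω_{n-1}`, and they are strictly below this
threshold for all large `k`. -/
theorem result (d : ℕ) (hd : 1 ≤ d) (lam : ℕ → ℝ) (u : ℕ → E d → ℝ) (G : ℕ → E d → E d)
    (hs : ∀ k, IsSol d (lam k) (u k) (G k)) (hb : Blowup d u) :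
    Tendsto (fun k => energy d (G k)) atTop (𝓝 (threshold d)) ∧
      ∀ᶠ k in atTop, energy d (G k) < threshold d :=
  main hd hs hb

end Pool.Agent.Results.MP_3a5611_an.Quantization
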